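import Pool.Agent.W297.LP.Stm

/-! Project LP (helper297), part JEN. -/

set_option autoImplicit false

open Finset

namespace Pool.Agent.W54.LP

open Pool.Agent.W297.LP

variable {V : Type} [Fintype V]

lemma mem_cl (W : V → V → ℝ) (D : Finset V) (s : ℕ) (x : Fin s → V) :
    x ∈ cl W D s ↔ (∀ i, x i ∈ D) ∧ ∀ i j, i ≠ j → W (x i) (x j) = 1 := by
  classical
  unfold cl
  exact (@mem_filter _ _ (_) _ _).trans ⟨fun h => h.2, fun h => ⟨mem_univ _, h⟩⟩

omit [Fintype V] in
lemma Ker.nn {W : V → V → ℝ} (h : Ker W) (x y : V) : 0 ≤ W x y := by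
  rcases h.zo x y with h | h <;> rw [h] <;> norm_num

lemma td_nn {W : V → V → ℝ} (h : Ker W) (T : Tr) (x : V) : 0 ≤ td W T x := by
  induction T generalizing x with
  | pt => simp [td]
  | br A B ihA ihB =>
    simp only [td]
    exact mul_nonneg (ihA x) (div_nonneg
      (sum_nonneg fun y _ => mul_nonneg (Ker.nn h x y) (ihB y)) (Nat.cast_nonneg _))

lemma td_mono {Q W : V → V → ℝ} (hQ : Ker Q) (hW : Ker W) (hle : ∀ x y, Q x y ≤ W x y)
    (T : Tr) (x : V) : td Q T x ≤ td W T x := by
  induction T generalizing x with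
  | pt => simp [td]
  | br A B ihA ihB =>
    simp only [td]
    apply mul_le_mul (ihA x) _ (div_nonneg
      (sum_nonneg fun y _ => mul_nonneg (Ker.nn hQ x y) (td_nn hQ B y)) (Nat.cast_nonneg _))
      (td_nn hW A x)
    apply div_le_div_of_nonneg_right _ (Nat.cast_nonneg _)
    exact sum_le_sum fun y _ => mul_le_mul (hle x y) (ihB y) (td_nn hQ B y) (Ker.nn hW x y)

theorem jen : SWalk → SJen := by
  classical
  intro hwalk k hk V _ _ W Q hW hQ hN hle Vi hdis hK hdg m hm T w hw hw1
  set N : ℝ := (Fintype.card V : ℝ) with hNdef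
  have hN0 : 0 < N := by rw [hNdef]; exact_mod_cast hN
  set Nk : ℝ := N ^ k with hNk
  have hNk0 : 0 < Nk := by positivity
  set g : (Fin k → V) → ℝ := fun x => ∏ j, td Q (T j) (x j) with hg
  set G : (Fin k → V) → ℝ := fun x => ∑ j, gt Q m (T j) (x j) with hG
  set K : Fin (k - 1) → ℝ := fun i => ((cl W (Vi i) k).card : ℝ) with hKdef
  have hK0 : ∀ i, 0 < K i := fun i => by simp only [hKdef]; exact_mod_cast hK i
  have hmem : ∀ i, ∀ x ∈ cl W (Vi i) k, ∀ j, x j ∈ Vi i := by
    intro i x hx j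
    exact ((mem_cl _ _ _ _).1 hx).1 j
  -- the values of `g`
  have hgpos : ∀ i, ∀ x ∈ cl W (Vi i) k, 0 < g x := fun i x hx =>
    prod_pos fun j _ => (hwalk V Q hQ m hm (T j) (x j) (hdg i _ (hmem i x hx j))).1
  have hlog : ∀ i, ∀ x ∈ cl W (Vi i) k, G x + (tot T : ℝ) * Real.log m ≤ Real.log (g x) := by
    intro i x hx
    simp only [hg, hG]
    rw [Real.log_prod (fun j _ =>
      (hwalk V Q hQ m hm (T j) (x j) (hdg i _ (hmem i x hx j))).1.ne')]
    have h1 : ∑ j, gt Q m (T j) (x j) ≤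
        ∑ j, (Real.log (td Q (T j) (x j)) - ((T j).sz : ℝ) * Real.log m) :=
      sum_le_sum fun j _ => (hwalk V Q hQ m hm (T j) (x j) (hdg i _ (hmem i x hx j))).2
    rw [sum_sub_distrib, ← sum_mul] at h1
    have h2 : (tot T : ℝ) = ∑ j, ((T j).sz : ℝ) := by unfold tot; push_cast; rfl
    rw [h2]
    linarith
  set S : ℝ := ∑ i, ∑ x ∈ cl W (Vi i) k, g x / Nk with hS
  have hk1 : 0 < k - 1 := by omega
  have hSi : ∀ i, 0 < ∑ x ∈ cl W (Vi i) k, g x / Nk := fun i =>
    sum_pos (fun x hx => div_pos (hgpos i x hx) hNk0) (card_pos.1 (hK i))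
  have hS0 : 0 < S := sum_pos (fun i _ => hSi i) ⟨⟨0, hk1⟩, mem_univ _⟩
  -- comparison with the lollipop density
  have hSlol : S ≤ lol W T := by
    unfold lol
    rw [← hNdef, ← hNk, hS]
    have h1 : ∑ i, ∑ x ∈ cl W (Vi i) k, g x / Nk =
        (∑ i, ∑ x ∈ cl W (Vi i) k, g x) / Nk := by
      rw [sum_div]
      exact sum_congr rfl fun i _ => (sum_div _ _ _).symm
    rw [h1]
    apply div_le_div_of_nonneg_right _ hNk0.le
    have h2 : ∑ i, ∑ x ∈ cl W (Vi i) k, g x ≤
        ∑ i, ∑ x ∈ cl W (Vi i) k, ∏ j, td W (T j) (x j) :=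
      sum_le_sum fun i _ => sum_le_sum fun x _ =>
        prod_le_prod (fun j _ => td_nn hQ _ _) fun j _ => td_mono hQ hW hle _ _
    refine h2.trans ?_
    rw [← sum_biUnion]
    · apply sum_le_sum_of_subset_of_nonneg
      · intro x hx
        rw [mem_biUnion] at hx
        obtain ⟨i, _, hx⟩ := hx
        rw [mem_cl] at hx ⊢
        exact ⟨fun _ => mem_univ _, hx.2⟩
      · intro x _ _
        exact prod_nonneg fun j _ => td_nn hW _ _
    · intro i _ j _ hij
      rw [Function.onFun, disjoint_left]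
      intro x hx hx'
      have h3 := hmem i x hx ⟨0, by omega⟩
      have h4 := hmem j x hx' ⟨0, by omega⟩
      exact disjoint_left.1 (hdis i j hij) h3 h4
  refine le_trans ?_ (Real.log_le_log hS0 hSlol)
  -- Jensen
  have key : ∀ i, w i * (Real.log (K i / (Nk * w i)) + (∑ x ∈ cl W (Vi i) k, G x) / K i) +
      w i * ((tot T : ℝ) * Real.log m) ≤
      (∑ x ∈ cl W (Vi i) k, g x / Nk) / S + w i * (Real.log S - 1) := by
    intro i
    have hwi := hw i
    have hKi := hK0 i
    have h1 : ∀ x ∈ cl W (Vi i) k, Real.log (K i / (Nk * w i)) + G x +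
        (tot T : ℝ) * Real.log m ≤ K i / w i * (g x / Nk) / S + (Real.log S - 1) := by
      intro x hx
      have h2 := hlog i x hx
      have h3 := hgpos i x hx
      have h4 : 0 < K i / (Nk * w i) := by positivity
      have h5 : 0 < K i / (Nk * w i) * g x := by positivity
      have h6 : Real.log (K i / (Nk * w i)) + Real.log (g x) =
          Real.log (K i / (Nk * w i) * g x) := (Real.log_mul h4.ne' h3.ne').symm
      have h7 := Real.log_le_sub_one_of_pos (div_pos h5 hS0)
      rw [Real.log_div h5.ne' hS0.ne'] at h7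
      have h8 : K i / (Nk * w i) * g x / S = K i / w i * (g x / Nk) / S := by
        field_simp
      rw [h8] at h7
      linarith
    have h2 := sum_le_sum h1
    rw [sum_add_distrib, sum_add_distrib, sum_add_distrib, sum_const, sum_const, sum_const,
      ← sum_div, ← mul_sum, nsmul_eq_mul, nsmul_eq_mul, nsmul_eq_mul] at h2
    have h3 : ((cl W (Vi i) k).card : ℝ) = K i := rfl
    rw [h3] at h2
    have h4 : w i * (Real.log (K i / (Nk * w i)) + (∑ x ∈ cl W (Vi i) k, G x) / K i) +
        w i * ((tot T : ℝ) * Real.log m) = w i / K i *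
        (K i * Real.log (K i / (Nk * w i)) + ∑ x ∈ cl W (Vi i) k, G x +
          K i * ((tot T : ℝ) * Real.log m)) := by
      field_simp
    have h5 : (∑ x ∈ cl W (Vi i) k, g x / Nk) / S + w i * (Real.log S - 1) = w i / K i *
        (K i / w i * (∑ x ∈ cl W (Vi i) k, g x / Nk) / S + K i * (Real.log S - 1)) := by
      field_simp
    rw [h4, h5]
    exact mul_le_mul_of_nonneg_left h2 (div_pos hwi hKi).le
  have hsum := sum_le_sum fun i (_ : i ∈ (univ : Finset (Fin (k - 1)))) => key i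
  rw [sum_add_distrib, sum_add_distrib, ← sum_mul, ← sum_mul, ← sum_div, hw1, ← hS,
    div_self hS0.ne'] at hsum
  have e : tot T * Real.log m + ∑ i, w i * (Real.log (K i / (Nk * w i)) +
      (∑ x ∈ cl W (Vi i) k, G x) / K i) ≤ Real.log S := by linarith
  exact e

end Pool.Agent.W54.LP
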